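import Pool.Agent.Lib.MP_619567_an.Fin
import Pool.Agent.Lib.MP_619567_an.P.Rolle
import Pool.Agent.Lib.MP_619567_an.P.Dre
import Pool.Agent.Lib.MP_619567_an.P.Nonflat
import Pool.Agent.Lib.MP_619567_an.P.Dconv
import Pool.Agent.Lib.MP_619567_an.P.Zero
import Pool.Agent.Lib.MP_619567_an.P.Bnd
import Pool.Agent.Lib.MP_619567_an.P.Maj
import Pool.Agent.Lib.MP_619567_an.P.Theta
import Pool.Agent.Lib.MP_619567_an.P.Eps
import Pool.Agent.Lib.MP_619567_an.P.Gcont
import Pool.Agent.Lib.MP_619567_an.P.Gsym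
import Pool.Agent.Lib.MP_619567_an.P.Ga
import Pool.Agent.Lib.MP_619567_an.P.Gnz
import Pool.Agent.Lib.MP_619567_an.P.Beta
import Pool.Agent.Lib.MP_619567_an.P.Intl
import Pool.Agent.Lib.MP_619567_an.P.Anz
import Pool.Agent.Lib.MP_619567_an.P.Ord
import Pool.Agent.Lib.MP_619567_an.P.Alt
import Pool.Agent.Lib.MP_619567_an.P.Cnt
import Pool.Agent.Lib.MP_619567_an.P.Cross
import Pool.Agent.Lib.MP_619567_an.P.Strip
import Pool.Agent.Lib.MP_619567_an.P.Comp
import Pool.Agent.Lib.MP_619567_an.P.Trap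
import Pool.Agent.Lib.MP_619567_an.P.Seg
import Pool.Agent.Lib.MP_619567_an.P.Topo
import Pool.Agent.Lib.MP_619567_an.P.Fer
import Pool.Agent.Lib.MP_619567_an.P.Grn
import Pool.Agent.Lib.MP_619567_an.P.Lim
import Pool.Agent.Lib.MP_619567_an.P.Map
import Pool.Agent.Lib.MP_619567_an.P.Cpt
import Pool.Agent.Lib.MP_619567_an.P.Nod

/-!
# Compact nodal domains of Eisenstein series on hyperbolic cylinders (MP_619567_an, Q1)

For every hyperbolic cylinder, every direction at infinity and every `λ > 0` the real part of the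
Eisenstein series `E_{1/2+iλ}(·,ξ)` has infinitely many nodal domains with compact closure.
-/

set_option autoImplicit false

open Filter Topology Set UpperHalfPlane Pool.Agent.Lib.MP_619567_an

namespace Pool.Agent.Results.MP_619567_an.Cylinder

theorem result (ℓ lam e ξ : ℝ) (hℓ : 0 < ℓ) (hlam : 0 < lam) (he : e = 1 ∨ e = -1) :
    ∃ E : ℍ → ℂ,
      (∀ z : ℍ, Tendsto (fun ρ : ℝ => (ρ : ℂ) ^ (-(1 / 2 + lam * Complex.I)) *
        resolventKernel (cyl ℓ) (1 / 2 + lam * Complex.I) z (funnelPt e ρ ξ)) (𝓝[>] 0) (𝓝 (E z))) ∧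
      (∀ g ∈ cyl ℓ, ∀ z : ℍ, E (g • z) = E z) ∧
      {D : Set (Quotient (MulAction.orbitRel (cyl ℓ) ℍ)) |
        IsNodalDomain (cyl ℓ) (fun z => (E z).re) D ∧ IsCompact (closure D)}.Infinite :=
  fin_assembly p_rolle p_dre p_nonflat p_dconv p_zero p_bnd p_maj p_theta p_eps p_gcont p_gsym p_ga
    p_gnz p_beta p_intl p_anz p_ord p_alt p_cnt p_cross p_strip p_comp p_trap p_seg p_topo p_fer
    p_grn p_lim p_map p_cpt p_nod ℓ lam e ξ hℓ hlam he

end Pool.Agent.Results.MP_619567_an.Cylinder
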